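import Pool.Agent.H21.CE.GenB
import Pool.Agent.H21.CE.Poly
import Pool.Agent.H21.CE.Strips

open MeasureTheory Set

/-- `vol(K∩T)·vol(L∩T) ≤ vol(B∩T)²` for every symmetric convex set `T` of `ℝⁿ` and all symmetric
measurable sets `K`, `L` with `⟨x, y⟩ ≤ 1` for `x ∈ K`, `y ∈ L`. -/
theorem Pool.Agent.Results.MP_f5910f_gt.Full.result :
    ∀ (n : ℕ) (K L T : Set (EuclideanSpace ℝ (Fin n))),
      MeasurableSet K → MeasurableSet L → (∀ x ∈ K, -x ∈ K) → (∀ x ∈ L, -x ∈ L) →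
      (∀ x ∈ K, ∀ y ∈ L, inner ℝ x y ≤ (1 : ℝ)) →
      Convex ℝ T → (∀ x ∈ T, -x ∈ T) →
      MeasureTheory.volume (K ∩ T) * MeasureTheory.volume (L ∩ T)
        ≤ MeasureTheory.volume
            (Metric.closedBall (0 : EuclideanSpace ℝ (Fin n)) 1 ∩ T) ^ 2 := by
  intro n K L T mK mL sK sL hrel hT sT
  exact Pool.Agent.H21.CE.gen_of
    (fun T' h1 h2 h3 h4 => Pool.Agent.H21.CE.pair_of Pool.Agent.H21.CE.poly_ineq
      Pool.Agent.H21.CE.body_strips n K L T' mK mL sK sL hrel h1 h2 h3 h4) hT sT
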